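import Pool.Agent.H88.MCR.Stmts

/-!
Board mcr, row KLT: `KL w` is a strict total order on the points different from `w`.
-/

namespace Pool.MCR

theorem klt_lp {L : Type} [LinearOrder L] (a b : L) : lp a 0 < lp b 0 ↔ a < b := by
  unfold lp
  rw [Prod.Lex.toLex_lt_toLex]
  simp

theorem klt_thm : KLT_S := by
  intro L _ w
  refine ⟨?_, ?_, ?_, ?_, ?_⟩
  · rintro c (⟨h1, h2⟩ | ⟨_, _, h⟩ | ⟨_, _, h⟩)
    · exact lt_asymm h1 h2
    · exact lt_irrefl _ h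
    · exact lt_irrefl _ h
  · rintro c d e (⟨h1, h2⟩ | ⟨h1, h2, h3⟩ | ⟨h1, h2, h3⟩) (⟨k1, k2⟩ | ⟨k1, k2, k3⟩ | ⟨k1, k2, k3⟩)
    · exact absurd (h2.trans k1) (lt_irrefl _)
    · exact absurd (h2.trans k1) (lt_irrefl _)
    · exact Or.inl ⟨h1, k2⟩
    · exact Or.inl ⟨h1, k2⟩
    · exact Or.inr (Or.inl ⟨h1, k2, h3.trans k3⟩)
    · exact absurd (h2.trans k1) (lt_irrefl _)
    · exact absurd (h2.trans k1) (lt_irrefl _)
    · exact absurd (h2.trans k1) (lt_irrefl _)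
    · exact Or.inr (Or.inr ⟨h1, k2, h3.trans k3⟩)
  · intro c d hc hd hcd
    unfold KL
    rcases lt_or_gt_of_ne hc with h1 | h1 <;> rcases lt_or_gt_of_ne hd with h2 | h2 <;>
      rcases lt_or_gt_of_ne hcd with h3 | h3 <;> tauto
  · rintro c d (⟨h1, h2⟩ | ⟨h1, h2, h3⟩ | ⟨h1, h2, h3⟩)
    · exact ⟨h1.ne', h2.ne, (h2.trans h1).ne'⟩
    · exact ⟨h1.ne', h2.ne', h3.ne⟩
    · exact ⟨h1.ne, h2.ne, h3.ne⟩
  · intro c d
    unfold KL
    simp only [klt_lp]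

end Pool.MCR
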